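import Pool.Agent.K7.H14.CF.QuadMain

/-!
# Unit-distance graphs over the real quadratic fields

For squarefree `d > 1` and `F = ℚ(√d)` the chromatic number of `F²` is two if `d` is not `3` modulo
`4`, and it is three if `d` is `3` or `7` modulo `12`. In particular it is two for `ℚ(√2)`.
-/

set_option autoImplicit false

namespace Pool.Agent.Results.MP_8b8716_co.QuadraticFields

open Pool.Agent.Results.MP_8b8716_co.ThreeValue

theorem result (d : ℕ) (hd : Squarefree d) (h1 : 1 < d) :
    (d % 4 ≠ 3 → (unitDistGraph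
      (IntermediateField.adjoin ℚ ({Real.sqrt d} : Set ℝ))).chromaticNumber = 2) ∧
    (d % 4 = 3 → 3 ≤ (unitDistGraph
      (IntermediateField.adjoin ℚ ({Real.sqrt d} : Set ℝ))).chromaticNumber) ∧
    (d % 12 = 3 ∨ d % 12 = 7 → (unitDistGraph
      (IntermediateField.adjoin ℚ ({Real.sqrt d} : Set ℝ))).chromaticNumber = 3) := by
  have hlow : d % 4 = 3 → 3 ≤ (unitDistGraph
      (IntermediateField.adjoin ℚ ({Real.sqrt d} : Set ℝ))).chromaticNumber := by
    intro h4
    by_contra hlt
    rw [not_le] at hlt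
    apply Pool.Agent.K7.H14.CF.Quad.not_two d h4
    rw [← SimpleGraph.chromaticNumber_le_iff_colorable]
    rw [show (3 : ℕ∞) = 2 + 1 by norm_num] at hlt
    exact Order.le_of_lt_add_one hlt
  refine ⟨fun h4 => ?_, hlow, fun h12 => ?_⟩
  · apply le_antisymm
    · exact SimpleGraph.chromaticNumber_le_iff_colorable.2
        (Pool.Agent.K7.H14.CF.Quad.two_col d hd h1 h4)
    · have : (unitDistGraph (IntermediateField.adjoin ℚ ({Real.sqrt d} : Set ℝ))).Adj
          (0, 0) (1, 0) := by
        change ((0 : IntermediateField.adjoin ℚ ({Real.sqrt d} : Set ℝ)) - 1) ^ 2 +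
          ((0 : IntermediateField.adjoin ℚ ({Real.sqrt d} : Set ℝ)) - 0) ^ 2 = 1
        ring
      exact SimpleGraph.two_le_chromaticNumber_of_adj this
  · have h4 : d % 4 = 3 := by omega
    apply le_antisymm
    · obtain ⟨φ⟩ := Pool.Agent.K7.H14.CF.Quad.hom3 d hd h1 h4 (by omega)
      exact SimpleGraph.chromaticNumber_le_iff_colorable.2
        (three_colorable _ (Pool.Agent.K7.H14.CF.Quad.algF d) φ)
    · exact hlow h4

end Pool.Agent.Results.MP_8b8716_co.QuadraticFields
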