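import Pool.Agent.K7.H14.CF.Redn

/-!
# Reduction of the plane over a real algebraic field modulo a prime

If the ring of integers of the real algebraic field `F` has a ring homomorphism to the field with
`p` elements, `p` a prime that is `3` modulo `4`, then the chromatic number of `F²` is at most that
of the unit-distance graph of the plane over the field with `p` elements; for `p = 7` it is at most
four.
-/

set_option autoImplicit false

namespace Pool.Agent.Results.MP_8b8716_co.ReductionModP

open Pool.Agent.Results.MP_8b8716_co.ThreeValue Pool.Agent.K7.H14.CF.Redn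

theorem result (F : IntermediateField ℚ ℝ) (hF : Algebra.IsAlgebraic ℚ F) (p : ℕ)
    (hp : p.Prime) (hp4 : p % 4 = 3) (hφ : Nonempty (integralClosure ℤ F →+* ZMod p)) :
    (unitDistGraph F).chromaticNumber ≤ (circleGraph p hp.one_lt).chromaticNumber ∧
      (p = 7 → (unitDistGraph F).chromaticNumber ≤ 4) := by
  obtain ⟨φ⟩ := hφ
  obtain ⟨f⟩ := reduction F hF p hp hp4 φ
  refine ⟨SimpleGraph.chromaticNumber_mono_of_hom f, ?_⟩
  rintro rfl
  exact SimpleGraph.chromaticNumber_le_iff_colorable.2 (seven.of_hom f)

end Pool.Agent.Results.MP_8b8716_co.ReductionModP
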