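import Pool.Agent.K7.H14.CF.Glue
import Pool.Agent.K7.H15.CF_FF
import Pool.Agent.K7.H99.CF_COL
import Pool.Agent.K7.H99.CF_FOUR

/-!
# Unit-distance graphs over the real algebraic fields containing `√3`

For a real algebraic field `F` containing `√3` the unit-distance graph of `F²` has chromatic number
three exactly if the ring of integers of `F` has a ring homomorphism to the field with three
elements; if it has none to the field with three elements but one to the field with two elements,
the chromatic number is four.
-/

set_option autoImplicit false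

namespace Pool.Agent.Results.MP_8b8716_co.RootThreeFields

open Pool.Agent.Results.MP_8b8716_co.ThreeValue Pool.Agent.K7.H14.CF

theorem result (F : IntermediateField ℚ ℝ) (hF : Algebra.IsAlgebraic ℚ F)
    (hs : ∃ s : F, s ^ 2 = 3) :
    ((unitDistGraph F).chromaticNumber = 3 ↔ Nonempty (integralClosure ℤ F →+* ZMod 3)) ∧
    (Nonempty (integralClosure ℤ F →+* ZMod 2) → ¬ Nonempty (integralClosure ℤ F →+* ZMod 3) →
      (unitDistGraph F).chromaticNumber = 4) := by
  have halg : StAlg := alg Pool.Agent.K7.H15.CF.ff
  have hthree : StThree := three halg Pool.Agent.K7.H99.CF.col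
  have hlow : 3 ≤ (unitDistGraph F).chromaticNumber := by
    obtain ⟨s, hs⟩ := hs
    by_contra hlt
    rw [not_le] at hlt
    have ha : IsIntegral ℤ s := by
      refine ⟨Polynomial.X ^ 2 - Polynomial.C 3, Polynomial.monic_X_pow_sub_C 3 two_ne_zero, ?_⟩
      simp [hs]
    have hb : IsIntegral ℤ ((s ^ 2 + 1) / 4) := by
      have : (s ^ 2 + 1) / 4 = 1 := by rw [hs]; norm_num
      rw [this]; exact isIntegral_one
    apply not_two_colorable_of F s ha hb
    rw [← SimpleGraph.chromaticNumber_le_iff_colorable]
    rw [show (3 : ℕ∞) = 2 + 1 by norm_num] at hlt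
    exact Order.le_of_lt_add_one hlt
  have h3 : (unitDistGraph F).Colorable 3 ↔ Nonempty (integralClosure ℤ F →+* ZMod 3) :=
    ⟨fun h => hthree F hF hs h, fun ⟨φ⟩ => three_colorable F hF φ⟩
  refine ⟨⟨fun h => ?_, fun h => ?_⟩, fun h2 hn => ?_⟩
  · rw [← h3, ← SimpleGraph.chromaticNumber_le_iff_colorable]
    exact h.le
  · refine le_antisymm ?_ hlow
    exact SimpleGraph.chromaticNumber_le_iff_colorable.2 (h3.2 h)
  · refine le_antisymm ?_ ?_
    · exact SimpleGraph.chromaticNumber_le_iff_colorable.2
        (Pool.Agent.K7.H99.CF.four F hF hs h2)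
    · by_contra hlt
      rw [not_le] at hlt
      apply hn
      rw [← h3, ← SimpleGraph.chromaticNumber_le_iff_colorable]
      rw [show (4 : ℕ∞) = 3 + 1 by norm_num] at hlt
      exact Order.le_of_lt_add_one hlt

end Pool.Agent.Results.MP_8b8716_co.RootThreeFields
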